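import Pool.Agent.P.MP_9167e9_an.StA

/-!
The module FAR: twisting far from the core, by Schur multipliers of positive type.
-/

noncomputable section
open scoped Classical

namespace Pool.Agent.P.MP_9167e9_an

namespace Far

section FBs

variable {Z : Type} {X X' : Z → Z → ℂ} {a b : ℝ}

theorem nsq_nonneg (s : Finset Z) (ξ : Z → ℂ) : 0 ≤ nsq s ξ :=
  Finset.sum_nonneg fun _ _ => by positivity

theorem fb_mono (h : FB X a) (hab : a ≤ b) : FB X b := fun s t ξ ζ =>
  (h s t ξ ζ).trans (by gcongr)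

theorem fb_add (h : FB X a) (h' : FB X' b) : FB (fun w w' => X w w' + X' w w') (a + b) := by
  intro s t ξ ζ
  simp only [mul_add, add_mul, Finset.sum_add_distrib]
  exact (norm_add_le _ _).trans (add_le_add (h s t ξ ζ) (h' s t ξ ζ))

theorem fb_sub (h : FB X a) (h' : FB X' b) : FB (fun w w' => X w w' - X' w w') (a + b) := by
  intro s t ξ ζ
  simp only [mul_sub, sub_mul, add_mul, Finset.sum_sub_distrib]
  exact (norm_sub_le _ _).trans (add_le_add (h s t ξ ζ) (h' s t ξ ζ))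

theorem fb_entry (h : FB X a) (w w' : Z) : ‖X w w'‖ ≤ a := by
  simpa [nsq] using h {w} {w'} (fun _ => 1) (fun _ => 1)

/-- Schur multiplication by a kernel that factors through unit vectors is contractive. -/
theorem fb_schur {Y : Type} (A : Z → Finset Y) (u v : Z → Y → ℂ)
    (hu : ∀ w, ∑ y ∈ A w, ‖u w y‖ ^ 2 ≤ 1) (hv : ∀ w, ∑ y ∈ A w, ‖v w y‖ ^ 2 ≤ 1) (ha : 0 ≤ a)
    (h : FB X a) : FB (fun w w' => X w w' * ∑ y ∈ A w ∩ A w', u w y * v w' y) a := by
  intro s t ξ ζ
  set S := s.biUnion A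
  have key : ∀ (r : Finset Z) (x : Z → ℂ) (u : Z → Y → ℂ), (∀ w, ∑ y ∈ A w, ‖u w y‖ ^ 2 ≤ 1) →
      ∑ y ∈ S, nsq r (fun w => if y ∈ A w then x w * u w y else 0) ≤ nsq r x := by
    intro r x u hu
    unfold nsq
    rw [Finset.sum_comm]
    refine Finset.sum_le_sum fun w _ => ?_
    have : ∀ y, ‖if y ∈ A w then x w * u w y else 0‖ ^ 2 =
        if y ∈ A w then ‖x w‖ ^ 2 * ‖u w y‖ ^ 2 else 0 := fun y => by
      split_ifs <;> simp [mul_pow]
    simp only [this]
    rw [Finset.sum_ite_mem, ← Finset.mul_sum]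
    refine mul_le_of_le_one_right (by positivity) (le_trans ?_ (hu w))
    exact Finset.sum_le_sum_of_subset_of_nonneg Finset.inter_subset_right fun _ _ _ => by
      positivity
  have e : ∑ w ∈ s, ∑ w' ∈ t, ξ w * (X w w' * ∑ y ∈ A w ∩ A w', u w y * v w' y) * ζ w' =
      ∑ y ∈ S, ∑ w ∈ s, ∑ w' ∈ t, (if y ∈ A w then ξ w * u w y else 0) * X w w' *
        (if y ∈ A w' then ζ w' * v w' y else 0) := by
    rw [Finset.sum_comm (s := S)]
    refine Finset.sum_congr rfl fun w hw => ?_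
    rw [Finset.sum_comm (s := S)]
    refine Finset.sum_congr rfl fun w' _ => ?_
    rw [Finset.mul_sum, Finset.mul_sum, Finset.sum_mul]
    have hs : A w ∩ A w' ⊆ S :=
      Finset.inter_subset_left.trans (Finset.subset_biUnion_of_mem A hw)
    rw [← Finset.sum_subset hs]
    · refine Finset.sum_congr rfl fun y hy => ?_
      rw [if_pos (Finset.mem_inter.1 hy).1, if_pos (Finset.mem_inter.1 hy).2]
      ring
    · intro y _ hy
      rw [Finset.mem_inter, not_and_or] at hy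
      rcases hy with hy | hy <;> simp [hy]
  rw [e]
  refine (norm_sum_le _ _).trans ((Finset.sum_le_sum fun y _ => h s t _ _).trans ?_)
  simp only [mul_assoc]
  rw [← Finset.mul_sum]
  refine mul_le_mul_of_nonneg_left ((Real.sum_sqrt_mul_sqrt_le S (fun _ => nsq_nonneg _ _)
    fun _ => nsq_nonneg _ _).trans ?_) ha
  gcongr
  · exact key s ξ u hu
  · exact key t ζ v hv

/-- The Schur test. -/
theorem fb_test (B : Z → Finset Z) (δ D : ℝ) (hδ : 0 ≤ δ) (hD : ∀ w, ((B w).card : ℝ) ≤ D)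
    (hB : ∀ w w', X w w' ≠ 0 → w' ∈ B w ∧ w ∈ B w') (h : ∀ w w', ‖X w w'‖ ≤ δ) :
    FB X (δ * D) := by
  intro s t ξ ζ
  set P := (s ×ˢ t).filter fun z => X z.1 z.2 ≠ 0 with hP
  have h1 : ∑ z ∈ P, ‖ξ z.1‖ ^ 2 ≤ D * nsq s ξ := by
    rw [hP, Finset.sum_filter, Finset.sum_product, nsq, Finset.mul_sum]
    refine Finset.sum_le_sum fun w _ => ?_
    rw [← Finset.sum_filter]
    simp only [Finset.sum_const, nsmul_eq_mul]
    refine mul_le_mul_of_nonneg_right (le_trans ?_ (hD w)) (by positivity)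
    exact_mod_cast Finset.card_le_card fun w' hw' => (hB _ _ (Finset.mem_filter.1 hw').2).1
  have h2 : ∑ z ∈ P, ‖ζ z.2‖ ^ 2 ≤ D * nsq t ζ := by
    rw [hP, Finset.sum_filter, Finset.sum_product_right, nsq, Finset.mul_sum]
    refine Finset.sum_le_sum fun w _ => ?_
    rw [← Finset.sum_filter]
    simp only [Finset.sum_const, nsmul_eq_mul]
    refine mul_le_mul_of_nonneg_right (le_trans ?_ (hD w)) (by positivity)
    exact_mod_cast Finset.card_le_card fun w' hw' => (hB _ _ (Finset.mem_filter.1 hw').2).2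
  have e : ∑ w ∈ s, ∑ w' ∈ t, ξ w * X w w' * ζ w' = ∑ z ∈ P, ξ z.1 * X z.1 z.2 * ζ z.2 := by
    rw [hP, Finset.sum_filter, Finset.sum_product]
    refine Finset.sum_congr rfl fun w _ => Finset.sum_congr rfl fun w' _ => ?_
    by_cases h0 : X w w' = 0 <;> simp [h0]
  rcases s.eq_empty_or_nonempty with rfl | ⟨w0, _⟩
  · simp [nsq]
  have hD0 : 0 ≤ D := le_trans (Nat.cast_nonneg _) (hD w0)
  rw [e]
  calc ‖∑ z ∈ P, ξ z.1 * X z.1 z.2 * ζ z.2‖ ≤ ∑ z ∈ P, δ * (‖ξ z.1‖ * ‖ζ z.2‖) := by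
        refine (norm_sum_le _ _).trans (Finset.sum_le_sum fun z _ => ?_)
        rw [norm_mul, norm_mul]
        calc ‖ξ z.1‖ * ‖X z.1 z.2‖ * ‖ζ z.2‖ ≤ ‖ξ z.1‖ * δ * ‖ζ z.2‖ := by gcongr; exact h _ _
          _ = _ := by ring
    _ ≤ δ * (√(D * nsq s ξ) * √(D * nsq t ζ)) := by
        rw [← Finset.mul_sum]
        refine mul_le_mul_of_nonneg_left ((Real.sum_mul_le_sqrt_mul_sqrt P _ _).trans ?_) hδ
        gcongr
    _ = δ * D * √(nsq s ξ) * √(nsq t ζ) := by
        rw [Real.sqrt_mul hD0, Real.sqrt_mul hD0]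
        have := Real.mul_self_sqrt hD0
        linear_combination δ * √(nsq s ξ) * √(nsq t ζ) * this

/-- The geometric series in `1 - K`. -/
theorem fb_series (K : Z → Z → ℂ) (hK : ∀ (T : Z → Z → ℂ) (c : ℝ), 0 ≤ c → FB T c →
    FB (fun w w' => T w w' * K w w') c) (ha : 0 ≤ a) (h : FB (fun w w' => X w w' * K w w') a)
    (m : ℕ) : ∀ b, FB (fun w w' => X w w' * (1 - K w w') ^ m) b → FB X (b + (2 ^ m - 1) * a) := by
  have h1 : ∀ m : ℕ, FB (fun w w' => X w w' * K w w' * (1 - K w w') ^ m) (2 ^ m * a) := by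
    intro m
    induction m with
    | zero => simpa using h
    | succ m ih =>
      have := fb_sub ih (hK _ _ (by positivity) ih)
      convert this using 1
      · funext w w'
        ring
      · ring
  induction m with
  | zero => simp
  | succ m ih =>
    intro b hb
    have h2 := ih (b + 2 ^ m * a) (by
      convert fb_add hb (h1 m) using 1
      funext w w'
      ring)
    convert h2 using 1
    ring

end FBs

section Cls

variable {Gen Z : Type} {α : FreeGroup Gen →* Equiv.Perm Z} {r r' : ℕ} {w w' w'' : Z}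

theorem cl_mono (h : Cl α r w w') (hr : r ≤ r') : Cl α r' w w' :=
  let ⟨f, h1, h2⟩ := h
  ⟨f, h1.trans hr, h2⟩

theorem cl_symm (h : Cl α r w w') : Cl α r w' w := by
  let := Classical.decEq Gen
  obtain ⟨f, h1, rfl⟩ := h
  exact ⟨f⁻¹, FreeGroup.norm_inv_eq.trans_le h1, by simp⟩

theorem cl_trans (h : Cl α r w w') (h' : Cl α r' w' w'') : Cl α (r + r') w w'' := by
  let := Classical.decEq Gen
  obtain ⟨f, h1, rfl⟩ := h
  obtain ⟨f', h2, rfl⟩ := h'
  exact ⟨f' * f, (FreeGroup.norm_mul_le _ _).trans ((add_le_add h2 h1).trans_eq (add_comm _ _)),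
    by simp⟩

theorem cl_refl (r : ℕ) (w : Z) : Cl α r w w := ⟨1, Nat.zero_le _, by simp⟩

theorem cl_zero (h : Cl α 0 w w') : w' = w := by
  let := Classical.decEq Gen
  obtain ⟨f, h1, rfl⟩ := h
  rw [FreeGroup.norm_eq_zero.1 (Nat.le_zero.1 h1)]
  simp

/-- Balls in the free group. -/
theorem ball (Gen : Type) [Fintype Gen] (R : ℕ) : ∃ B : Finset (FreeGroup Gen),
    B.card ≤ (2 * Fintype.card Gen + 1) ^ R ∧ ∀ f, nr f ≤ R → f ∈ B := by
  let := Classical.decEq Gen
  induction R with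
  | zero => exact ⟨{1}, by simp, fun f h => by rw [FreeGroup.norm_eq_zero.1 (Nat.le_zero.1 h)]; simp⟩
  | succ R ih =>
    obtain ⟨B, hc, hB⟩ := ih
    refine ⟨((Finset.univ : Finset (Option (Gen × Bool))) ×ˢ B).image
      fun z => FreeGroup.mk z.1.toList * z.2, Finset.card_image_le.trans ?_, fun f hf => ?_⟩
    · rw [Finset.card_product, pow_succ']
      exact Nat.mul_le_mul (by simp [mul_comm]) hc
    · rw [Finset.mem_image]
      rcases hw : f.toWord with _ | ⟨l, u⟩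
      · have h1 : nr f ≤ R := by
          rw [FreeGroup.toWord_eq_nil_iff.1 hw]
          exact Nat.zero_le _
        exact ⟨(none, f), by simpa using hB f h1, by simp [← FreeGroup.one_eq_mk]⟩
      · have h1 : u.length + 1 ≤ R + 1 := by
          have : f.toWord.length ≤ R + 1 := hf
          rwa [hw] at this
        refine ⟨(some l, FreeGroup.mk u),
          by simpa using hB _ (FreeGroup.norm_mk_le.trans (by omega)), ?_⟩
        rw [← FreeGroup.mk_toWord (x := f), hw]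
        simp

end Cls

/-- The overlap of two nearby probability vectors. -/
theorem kap {Y : Type} (P Q : Finset Y) (a b c : Y → ℝ) (η M : ℝ) (h0 : 0 < η)
    (h1 : η ≤ 1 / 100) (ha : ∀ y, 0 ≤ a y) (hb : ∀ y, 0 ≤ b y) (hc : ∀ y, 0 ≤ c y)
    (hab : ∀ y ∈ P ∩ Q, a y ≤ (1 + 2 * η) * b y ∧ b y ≤ (1 + 2 * η) * a y)
    (hP : ∀ y ∈ P \ Q, a y ≤ (1 + 2 * η) * c y) (hQ : ∀ y ∈ Q \ P, b y ≤ (1 + 2 * η) * c y)
    (hM : ∑ y ∈ P \ Q, c y + ∑ y ∈ Q \ P, c y ≤ M) (hM0 : 0 < M) (hMa : M ≤ η * ∑ y ∈ P, a y) :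
    1 - 10 * η ≤ ∑ y ∈ P ∩ Q, √(a y / ∑ y ∈ P, a y) * √(b y / ∑ y ∈ Q, b y) := by
  have eP := Finset.sum_inter_add_sum_sdiff P Q a
  have eQ := Finset.sum_inter_add_sum_sdiff Q P b
  rw [Finset.inter_comm] at eQ
  have c1 : 0 ≤ ∑ y ∈ P \ Q, c y := Finset.sum_nonneg fun _ _ => hc _
  have c2 : 0 ≤ ∑ y ∈ Q \ P, c y := Finset.sum_nonneg fun _ _ => hc _
  have b2 : 0 ≤ ∑ y ∈ Q \ P, b y := Finset.sum_nonneg fun _ _ => hb _
  have a2 : 0 ≤ ∑ y ∈ P \ Q, a y := Finset.sum_nonneg fun _ _ => ha _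
  have k1 := Finset.sum_le_sum hP
  have k2 := Finset.sum_le_sum hQ
  have k3 := Finset.sum_le_sum fun y hy => (hab y hy).1
  have k4 := Finset.sum_le_sum fun y hy => (hab y hy).2
  rw [← Finset.mul_sum] at k1 k2 k3 k4
  set Za := ∑ y ∈ P, a y
  set Zb := ∑ y ∈ Q, b y
  set I := ∑ y ∈ P ∩ Q, a y with hI
  have hZa : 0 < Za := (mul_pos_iff_of_pos_left h0).1 (hM0.trans_le hMa)
  have hE : 0 ≤ 1 + 2 * η := by positivity
  have m1 : (1 + 2 * η) * ∑ y ∈ P \ Q, c y ≤ (1 + 2 * η) * (η * Za) :=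
    mul_le_mul_of_nonneg_left (by linarith) hE
  have m2 : (1 + 2 * η) * ∑ y ∈ Q \ P, c y ≤ (1 + 2 * η) * (η * Za) :=
    mul_le_mul_of_nonneg_left (by linarith) hE
  have m3 : (1 + 2 * η) * I ≤ (1 + 2 * η) * Za := mul_le_mul_of_nonneg_left (by linarith) hE
  have m4 : (1 + 2 * η) * (η * Za) ≤ 2 * (η * Za) :=
    mul_le_mul_of_nonneg_right (by linarith) (by positivity)
  have hIa : (1 - 2 * η) * Za ≤ I := by linarith
  have hI0 : 0 < I := lt_of_lt_of_le (mul_pos (by linarith) hZa) hIa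
  have hZb : 0 < Zb := by
    have : 0 < ∑ y ∈ P ∩ Q, b y :=
      (mul_pos_iff_of_pos_left (by positivity)).1 (hI0.trans_le k3)
    linarith
  have hba : Zb ≤ (1 + 2 * η) * (1 + η) * Za := by linarith
  have hF : (1 + 2 * η) * ((1 + 2 * η) * (1 + η)) ≤ (1 + 3 * η) ^ 2 := by
    have : η * η ≤ 1 / 100 * (1 / 100) := by gcongr
    nlinarith
  have t : ∀ y ∈ P ∩ Q, a y / (Za * (1 + 3 * η)) ≤ √(a y / Za) * √(b y / Zb) := by
    intro y hy
    have := ha y
    have := hb y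
    rw [← Real.sqrt_mul (by positivity)]
    refine Real.le_sqrt_of_sq_le ?_
    rw [div_pow, div_mul_div_comm, div_le_div_iff₀ (by positivity) (by positivity)]
    have s1 : a y * Zb ≤ (1 + 2 * η) * b y * ((1 + 2 * η) * (1 + η) * Za) :=
      mul_le_mul (hab y hy).1 hba hZb.le (by positivity)
    have s2 : (1 + 2 * η) * ((1 + 2 * η) * (1 + η)) * (b y * Za) ≤ (1 + 3 * η) ^ 2 * (b y * Za) :=
      mul_le_mul_of_nonneg_right hF (by positivity)
    have s3 : a y * Za * (a y * Zb) ≤ a y * Za * ((1 + 3 * η) ^ 2 * (b y * Za)) :=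
      mul_le_mul_of_nonneg_left (by linarith) (by positivity)
    linarith
  refine le_trans ?_ (Finset.sum_le_sum t)
  rw [← Finset.sum_div, ← hI, le_div_iff₀ (by positivity)]
  have : (1 - 10 * η) * (1 + 3 * η) ≤ 1 - 2 * η := by nlinarith
  nlinarith

section Psi

variable {Gen Z Y : Type} (α : FreeGroup Gen →* Equiv.Perm Z) (A : Z → Finset Y) (L : ℕ)

/-- The depth of `w` in the set of points that see `y`. -/
def sv (w : Z) (y : Y) : ℕ := Nat.findGreatest (fun l => ∀ w', Cl α l w w' → y ∈ A w') L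

variable {α A L} {R : ℕ} {w w' : Z} {y : Y}

theorem sv_spec (hy : y ∈ A w) : ∀ w', Cl α (sv α A L w y) w w' → y ∈ A w' :=
  Nat.findGreatest_spec (P := fun l => ∀ w', Cl α l w w' → y ∈ A w') (Nat.zero_le L)
    fun _ h => cl_zero h ▸ hy

theorem sv_lip (hy : y ∈ A w) (h : Cl α R w w') : sv α A L w y ≤ sv α A L w' y + R := by
  rcases le_total (sv α A L w y) R with h1 | h1
  · omega
  · have h2 : sv α A L w y ≤ L := Nat.findGreatest_le _
    have : sv α A L w y - R ≤ sv α A L w' y :=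
      Nat.le_findGreatest (by omega) fun w'' h' =>
        sv_spec (L := L) hy w'' (cl_mono (cl_trans h h') (by omega))
    omega

theorem sv_lost (hy : y ∈ A w) (hy' : y ∉ A w') (h : Cl α R w w') : sv α A L w y ≤ R :=
  le_of_not_ge fun h1 => hy' (sv_spec hy w' (cl_mono h h1))

end Psi

end Far

open Far in
theorem pFar : StFar := by
  intro Gen Z C Y _ α dC Ht θ p A c Fr R L M0 η ε X Λ φ hH hc hd h0 h1 hε hεR hM0 hFar hX hFB
  rcases isEmpty_or_nonempty Z with hZ | ⟨⟨w0⟩⟩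
  · intro s t ξ ζ
    simp [Subsingleton.elim s ∅, nsq]
  have hΛ : 0 ≤ Λ := (norm_nonneg _).trans (fb_entry hFB w0 w0)
  set av : Z → Y → ℝ := fun w y => c y * Real.exp (ε * sv α A L w y) with hav
  have av0 : ∀ w y, 0 ≤ av w y := fun w y => mul_nonneg (hc y) (Real.exp_pos _).le
  set ps : Z → Y → ℝ := fun w y => √(av w y / ∑ y ∈ A w, av w y) with hps
  have ps0 : ∀ w y, 0 ≤ ps w y := fun w y => Real.sqrt_nonneg _
  have ps1 : ∀ w, ∑ y ∈ A w, ps w y ^ 2 ≤ 1 := fun w => by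
    have : ∀ y, ps w y ^ 2 = av w y / ∑ y ∈ A w, av w y := fun y =>
      Real.sq_sqrt (div_nonneg (av0 _ _) (Finset.sum_nonneg fun _ _ => av0 _ _))
    simp only [this]
    rw [← Finset.sum_div]
    exact div_self_le_one _
  set κ : Z → Z → ℝ := fun w w' => ∑ y ∈ A w ∩ A w', ps w y * ps w' y with hκ
  have κs : ∀ w w', κ w w' = κ w' w := fun w w' => by
    simp only [hκ]
    rw [Finset.inter_comm]
    exact Finset.sum_congr rfl fun _ _ => mul_comm _ _
  have κ1 : ∀ w w', κ w w' ≤ 1 := fun w w' => by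
    have a1 : ∑ y ∈ A w ∩ A w', ps w y ^ 2 ≤ 1 := le_trans (Finset.sum_le_sum_of_subset_of_nonneg
      Finset.inter_subset_left fun _ _ _ => by positivity) (ps1 w)
    have a2 : ∑ y ∈ A w ∩ A w', ps w' y ^ 2 ≤ 1 := le_trans (Finset.sum_le_sum_of_subset_of_nonneg
      Finset.inter_subset_right fun _ _ _ => by positivity) (ps1 w')
    refine (Real.sum_mul_le_sqrt_mul_sqrt _ _ _).trans ?_
    exact mul_le_one₀ (Real.sqrt_le_one.2 a1) (Real.sqrt_nonneg _) (Real.sqrt_le_one.2 a2)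
  have hexp : Real.exp (ε * R) ≤ 1 + 2 * η := by
    have := Real.abs_exp_sub_one_le (x := η) (by rw [abs_of_pos h0]; linarith)
    rw [abs_of_pos h0] at this
    linarith [Real.exp_le_exp.2 hεR, le_abs_self (Real.exp η - 1)]
  have lip : ∀ w w' y, y ∈ A w → Cl α R w w' → av w y ≤ (1 + 2 * η) * av w' y := by
    intro w w' y hy h
    have a1 : (sv α A L w y : ℝ) ≤ sv α A L w' y + R := by exact_mod_cast sv_lip hy h
    calc av w y ≤ c y * Real.exp (ε * (sv α A L w' y + R)) :=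
          mul_le_mul_of_nonneg_left (Real.exp_le_exp.2 (by gcongr)) (hc y)
      _ = Real.exp (ε * R) * av w' y := by rw [mul_add, Real.exp_add]; ring
      _ ≤ _ := mul_le_mul_of_nonneg_right hexp (av0 _ _)
  have lost : ∀ w w', Cl α R w w' → ∀ y ∈ A w \ A w', av w y ≤ (1 + 2 * η) * c y := by
    intro w w' h y hy
    rw [Finset.mem_sdiff] at hy
    have a1 : (sv α A L w y : ℝ) ≤ R := by exact_mod_cast sv_lost hy.1 hy.2 h
    rw [mul_comm]
    exact mul_le_mul_of_nonneg_left ((Real.exp_le_exp.2 (by gcongr)).trans hexp) (hc y)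
  have κ0 : ∀ w ∈ Fr, ∀ w', Cl α R w w' → 1 - 10 * η ≤ κ w w' := by
    intro w hw w' h
    obtain ⟨M, hM, hM1, hM2⟩ := hFar w hw
    refine kap (A w) (A w') (av w) (av w') c η M h0 h1 (av0 w) (av0 w') hc
      (fun y hy => ⟨lip w w' y (Finset.mem_inter.1 hy).1 h,
        lip w' w y (Finset.mem_inter.1 hy).2 (cl_symm h)⟩)
      (lost w w' h) (lost w' w (cl_symm h)) (hM1 w' h) hM ?_
    rcases hM2 with ⟨y, l, hl, hy, h2⟩ | h2
    · have a1 : (l : ℝ) ≤ sv α A L w y := by exact_mod_cast Nat.le_findGreatest hl hy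
      have a2 : c y * Real.exp (ε * l) ≤ av w y :=
        mul_le_mul_of_nonneg_left (Real.exp_le_exp.2 (by gcongr)) (hc y)
      have a3 := Finset.single_le_sum (fun y _ => av0 w y) (hy w (cl_refl l w))
      rw [mul_assoc] at h2
      exact h2.trans (mul_le_mul_of_nonneg_left (a2.trans a3) h0.le)
    · refine h2.trans (mul_le_mul_of_nonneg_left (Finset.sum_le_sum fun y _ => ?_) h0.le)
      exact le_mul_of_one_le_right (hc y) (Real.one_le_exp (by positivity))
  -- the truncated kernel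
  have hX' : FB (fun w w' => if w ∈ Fr ∨ w' ∈ Fr then X w w' else 0) (Λ + Λ) := by
    have := fb_schur (fun w => if w ∈ Fr then (∅ : Finset Unit) else {()}) (fun _ _ => 1)
      (fun _ _ => 1) (fun w => by split_ifs <;> simp) (fun w => by split_ifs <;> simp) hΛ hFB
    convert fb_sub hFB this using 1
    funext w w'
    by_cases a1 : w ∈ Fr <;> by_cases a2 : w' ∈ Fr <;> simp [a1, a2]
  have base : ∀ y, ∃ b, ∀ w, y ∈ A w → y ∈ A b := fun y => by
    by_cases h : ∃ w, y ∈ A w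
    · exact ⟨h.choose, fun _ _ => h.choose_spec⟩
    · exact ⟨w0, fun w hw => (h ⟨w, hw⟩).elim⟩
  choose b hb using base
  set T : Z → Z → ℂ := fun w w' =>
    if w ∈ Fr ∨ w' ∈ Fr then tw (fun a b => Ht (p a) (p b)) φ X w w' else 0 with hT
  have nrm : ∀ w y (x : ℝ), ‖(ps w y : ℂ) * Complex.exp (x * Complex.I)‖ ^ 2 = ps w y ^ 2 := by
    intro w y x
    rw [norm_mul, Complex.norm_exp_ofReal_mul_I, mul_one, Complex.norm_real, Real.norm_eq_abs,
      sq_abs]
  have hTκ : FB (fun w w' => T w w' * (κ w w' : ℂ)) (Λ + Λ) := by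
    have := fb_schur A
      (fun w y => (ps w y : ℂ) * Complex.exp ((φ * Ht (p (b y)) (p w) : ℝ) * Complex.I))
      (fun w y => (ps w y : ℂ) * Complex.exp ((-(φ * Ht (p (b y)) (p w)) : ℝ) * Complex.I))
      (fun w => by simpa only [nrm] using ps1 w) (fun w => by simpa only [nrm] using ps1 w)
      (by positivity) hX'
    convert this using 1
    funext w w'
    simp only [hT, hκ]
    split_ifs
    · rw [tw, Complex.ofReal_sum, mul_assoc, Finset.mul_sum]
      refine congrArg _ (Finset.sum_congr rfl fun y hy => ?_)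
      obtain ⟨a1, a2⟩ := Finset.mem_inter.1 hy
      rw [mul_mul_mul_comm, ← Complex.exp_add, mul_comm,
        ← hH _ _ _ (hd y _ _ (hb y w' a2) a2) (hd y _ _ a2 a1)]
      push_cast
      congr 2
      ring
    · simp
  have hK : ∀ (T : Z → Z → ℂ) (c : ℝ), 0 ≤ c → FB T c →
      FB (fun w w' => T w w' * (κ w w' : ℂ)) c := by
    intro T c hc hT
    have := fb_schur A (fun w y => (ps w y : ℂ)) (fun w y => (ps w y : ℂ))
      (fun w => by simpa using ps1 w) (fun w => by simpa using ps1 w) hc hT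
    simpa [hκ] using this
  obtain ⟨B, hB, hB'⟩ := ball Gen R
  have mem : ∀ w w', Cl α R w w' → w' ∈ B.image fun f => α f w := fun w w' ⟨f, a1, a2⟩ =>
    Finset.mem_image.2 ⟨f, hB' f a1, a2⟩
  have sup : ∀ w w', T w w' ≠ 0 → Cl α R w w' ∧ (w ∈ Fr ∨ w' ∈ Fr) := by
    intro w w' h
    simp only [hT] at h
    split_ifs at h with a1
    · exact ⟨hX w w' (left_ne_zero_of_mul h), a1⟩
    · exact (h rfl).elim
  have last : FB (fun w w' => T w w' * (1 - (κ w w' : ℂ)) ^ M0)
      (Λ * (10 * η) ^ M0 * (2 * Fintype.card Gen + 1 : ℝ) ^ R) := by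
    refine fb_test (fun w => B.image fun f => α f w) _ _ (by positivity) (fun w => ?_)
      (fun w w' h => ?_) fun w w' => ?_
    · exact_mod_cast Finset.card_image_le.trans hB
    · have := (sup w w' (left_ne_zero_of_mul h)).1
      exact ⟨mem _ _ this, mem _ _ (cl_symm this)⟩
    · by_cases h : T w w' = 0
      · rw [h, zero_mul, norm_zero]
        positivity
      obtain ⟨a1, a2⟩ := sup w w' h
      have a3 : 1 - 10 * η ≤ κ w w' :=
        a2.elim (fun a => κ0 w a w' a1) fun a => κs w w' ▸ κ0 w' a w (cl_symm a1)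
      have a4 : ‖T w w'‖ ≤ Λ := by
        simp only [hT, if_pos a2, tw]
        rw [norm_mul, Complex.norm_exp_ofReal_mul_I, mul_one]
        exact fb_entry hFB w w'
      have a5 : ‖1 - (κ w w' : ℂ)‖ ≤ 10 * η := by
        rw [← Complex.ofReal_one, ← Complex.ofReal_sub, Complex.norm_real, Real.norm_eq_abs,
          abs_of_nonneg (sub_nonneg.2 (κ1 w w'))]
        linarith
      rw [norm_mul, norm_pow]
      gcongr
  refine fb_mono (fb_series (fun w w' => (κ w w' : ℂ)) hK (by positivity) hTκ M0 _ last) ?_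
  have := mul_le_mul_of_nonneg_left hM0 hΛ
  rw [mul_assoc, pow_succ]
  linarith

end Pool.Agent.P.MP_9167e9_an
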